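import Mathlib
import Pool.Agent.Run7.h239.BD
set_option autoImplicit false

/-!
# Croft's question for sets approximable by sets with a boundary of dimension less than `2`

A measurable plane set `E` of positive area is called approximable here if for every `ε > 0` there is a
bounded set `F` whose topological boundary has Hausdorff dimension less than `2` such that, except for
directions forming a set of measure at most `ε`, every line `L` meets `E ∆ F` in length at most `ε`.
For such a set and for almost every direction, the length `H¹(L ∩ E)` depends continuously on the line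
`L` of that direction and takes all values in an interval `(0, δ)` with `δ > 0` independent of the direction.
So Croft's question Q1 has a positive answer for `E`.

The proof.  A compact set which contains, in each direction of a set of directions of positive measure, a
subset of positive length of a line, has Hausdorff dimension `2` (Davies; Córdoba's estimate).  Hence for
almost every direction all lines of this direction meet `∂F` in length `0`, and `p ↦ H¹(L ∩ F)` is
continuous by dominated convergence.  The uniform approximation (Borel-Cantelli over the directions) carries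
the continuity over to `E`, and Fubini's theorem gives a line of large intersection.
-/

namespace Pool.Agent.Results.MP_ec7c5f_an.BoundaryDimension

open MeasureTheory Set Metric
open scoped ENNReal

abbrev E2 := EuclideanSpace ℝ (Fin 2)

/-- rotation by a right angle -/
noncomputable def J (e : E2) : E2 := !₂[-e 1, e 0]

/-- the line `{x | x · θ = p}` -/
def line (θ : E2) (p : ℝ) : Set E2 := {x | inner ℝ x θ = p}

/-- `E` is a limit of bounded sets whose boundary has Hausdorff dimension less than `2`, uniformly over
the lines of most directions: for every `ε > 0` there is a bounded set `F` with `dim_H ∂F < 2` such that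
the directions `e` for which some line `L` parallel to `e` has `H¹(L ∩ (E ∆ F)) > ε` form a set of
(outer) measure at most `ε`. -/
def Approximable (E : Set E2) : Prop :=
  ∀ ε : ℝ, 0 < ε → ∃ F : Set E2, Bornology.IsBounded F ∧ dimH (frontier F) < 2 ∧
    (volume : Measure E2).toSphere {e : sphere (0 : E2) 1 | ∃ p : ℝ,
      ENNReal.ofReal ε < μH[1] (line (J e) p ∩ symmDiff E F)} ≤ ENNReal.ofReal ε

/-- **Theorem.**

(1) Examples of approximable sets: `F₀ \ ⋃ F n` and `F₀ ∪ ⋃ F n`, if `F₀` is bounded, the boundaries of
`F₀` and of all `F n` have dimension less than `2`, and `∑ diam (F n) < ∞` (with `F n = ∅`: every bounded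
set with a boundary of dimension less than `2`).

(2) If `E` is Lebesgue measurable, has positive area and is approximable, then there is `δ > 0` such that for
almost every direction `e` the length of the intersection of `E` with a line parallel to `e` is finite,
depends continuously on the line, and takes every value `t ∈ (0, δ)`.  In particular every
`t ∈ (0, δ)` is the length `H¹(L ∩ E)` for some line `L`: Croft's question Q1 has a positive answer
for `E`. -/
theorem result :
    (∀ (F₀ : Set E2) (F : ℕ → Set E2), Bornology.IsBounded F₀ → dimH (frontier F₀) < 2 →
      (∀ n, dimH (frontier (F n)) < 2) → ∑' n, ediam (F n) ≠ ∞ →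
      Approximable (F₀ \ ⋃ n, F n) ∧ Approximable (F₀ ∪ ⋃ n, F n)) ∧
    ∀ E : Set E2, NullMeasurableSet E volume → 0 < volume E → Approximable E →
      ∃ δ : ℝ, 0 < δ ∧
        (∀ᵐ e : sphere (0 : E2) 1 ∂(volume : Measure E2).toSphere,
          (∀ p : ℝ, μH[1] (line (J e) p ∩ E) < ∞) ∧
          Continuous (fun p : ℝ => (μH[1] (line (J e) p ∩ E)).toReal) ∧
          ∀ t ∈ Ioo 0 δ, ∃ p : ℝ, μH[1] (line (J e) p ∩ E) = ENNReal.ofReal t) ∧
        ∀ t ∈ Ioo 0 δ, ∃ (θ : E2) (p : ℝ), ‖θ‖ = 1 ∧ μH[1] (line θ p ∩ E) = ENNReal.ofReal t :=
  ⟨fun F₀ F hb₀ hd₀ hd hs => Run7.h239.BD.approx_series F₀ hb₀ hd₀ F hd hs,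
    fun E hE hvol happ => Run7.h239.BD.main E hE hvol happ⟩

end Pool.Agent.Results.MP_ec7c5f_an.BoundaryDimension
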