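import Mathlib
import Pool.Agent.Run7.h239.DL
set_option autoImplicit false

/-!
# The lengths of the sections of a plane set by lines are dense in an interval `(0, δ)`

For EVERY Lebesgue measurable plane set `E` of positive finite area there is `δ > 0` such that for all
`0 ≤ a < b ≤ δ` the lines `L` with `a < H¹(L ∩ E) < b` form a set of positive measure.  In particular
the values `H¹(L ∩ E)` are dense in `(0, δ)`: the approximate form of Croft's question Q1 has a positive
answer for all sets.  The statement is not sensitive to changes of `E` on null sets.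

The proof.  Let `f(m,c)` be the length of the projection of `E ∩ {y = m x + c}` to the first axis,
`W(m) = 1/(1+m²)` and `Q(t) = ∫ W(m) ∫ f(m,c) f(m,c+t) dc dm`.  With the autocorrelation
`R(u,v) = |E ∩ (E - (u,v))|`, Tonelli's theorem and a change of variables give
`(2 Q(0) - 2 Q(t))/t = ∫∫ (2 W(m) - W(m - 1/s) - W(m + 1/s)) R(t s, t m s) dm ds`; the kernel is integrable on
the plane and has integral `0`, and `R` is continuous at `0`, so the right side tends to `0` as `t → 0`.
If a.e. line has `H¹(L ∩ E)` outside `(a,b)`, then the set `S_m` of the `c` with a section of length at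
least `b` satisfies `∫ W(m)² |S_m ∆ (S_m - t)| dm ≤ (2 Q(0) - 2 Q(t))/(b-a)² = o(t)`, and as the left side is
subadditive in `t`, it vanishes.  So `S_m` is invariant under translations up to null sets and has finite
measure; it is a null set for a.e. `m`, and a.e. line has `H¹(L ∩ E) ≤ a`, which is impossible for small
`a` by Fubini's theorem.
-/

namespace Pool.Agent.Results.MP_ec7c5f_an.DenseLengths

open MeasureTheory Set
open scoped ENNReal

abbrev E2 := EuclideanSpace ℝ (Fin 2)

/-- the line `y = m x + c` -/
def gline (m c : ℝ) : Set E2 := {x | x 1 = m * x 0 + c}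

/-- **Theorem.** For every Lebesgue measurable plane set `E` with `0 < |E| < ∞` there is `δ > 0` such that for all
`0 ≤ a < b ≤ δ` the set of the pairs `(m, c)` for which the line `y = m x + c` meets `E` in a set of
length strictly between `a` and `b` has positive measure. In particular the set of the values `H¹(L ∩ E)`,
`L` a line, is dense in `(0, δ)`. -/
theorem result (E : Set E2) (hE : NullMeasurableSet E volume) (h0 : 0 < volume E) (hfin : volume E < ∞) :
    ∃ δ : ℝ, 0 < δ ∧ ∀ a b : ℝ, 0 ≤ a → a < b → b ≤ δ →
      0 < volume {q : ℝ × ℝ | ENNReal.ofReal a < μH[1] (gline q.1 q.2 ∩ E) ∧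
        μH[1] (gline q.1 q.2 ∩ E) < ENNReal.ofReal b} :=
  Run7.h239.DL.main hE h0 hfin

end Pool.Agent.Results.MP_ec7c5f_an.DenseLengths
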